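import Mathlib

set_option autoImplicit false

namespace Pool.Agent.H.MP_38279d_an

open Finset

def sw {D : ℕ} (g : ℕ) (i : Fin D) (l : List (Fin D)) : List (Fin D) :=
  if l.head? = some i then (if l.tail.head? = some i then l else l.tail)
  else if l.length < g then i :: l else l

theorem sw_len {D : ℕ} (g : ℕ) (i : Fin D) (l : List (Fin D)) (h : l.length ≤ g) :
    (sw g i l).length ≤ g := by
  unfold sw
  split_ifs
  exacts [h, by rw [List.length_tail]; omega, by rw [List.length_cons]; omega, h]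

theorem sw_len' {D : ℕ} (g : ℕ) (i : Fin D) (l : List (Fin D)) :
    (sw g i l).length ≤ l.length + 1 := by
  unfold sw
  split_ifs
  exacts [by omega, by rw [List.length_tail]; omega, by rw [List.length_cons], by omega]

theorem sw_sw {D : ℕ} (g : ℕ) (i : Fin D) (l : List (Fin D)) (h : l.length ≤ g) :
    sw g i (sw g i l) = l := by
  by_cases a : l.head? = some i
  · by_cases b : l.tail.head? = some i
    · simp only [sw, a, b, if_true]
    · obtain _ | ⟨j, r⟩ := l
      · simp at a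
      · obtain rfl : j = i := by simpa using a
        have : r.length < g := h
        rw [List.tail_cons] at b
        simp [sw, b, this]
  · by_cases b : l.length < g <;> simp [sw, a, b]

/-- Involutions of a finite set with no short relations. -/
theorem grp (D g : ℕ) : ∃ (Γ : Type) (_ : Fintype Γ) (_ : Nonempty Γ) (s : Fin D → Γ → Γ)
    (c : Γ → Γ → List (Fin D)), (∀ i x, s i (s i x) = x) ∧ (∀ x, c x x = []) ∧
      (∀ x y i, (c (s i x) y).length ≤ (c x y).length + 1) ∧
      ∀ x y i, (c x y).head? ≠ some i → (c x y).length < g → c (s i x) y = i :: c x y := by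
  classical
  let W := {l : List (Fin D) // l.length ≤ g}
  have : Finite W := (List.finite_length_le _ g).to_subtype
  have := Fintype.ofFinite W
  let σ : Fin D → Equiv.Perm W := fun i => Function.Involutive.toPerm
    (fun l => ⟨sw g i l.1, sw_len g i _ l.2⟩) fun l => Subtype.ext (sw_sw g i _ l.2)
  refine ⟨Equiv.Perm W, inferInstance, ⟨1⟩, fun i x => σ i * x,
    fun x y => ((x * y⁻¹) ⟨[], by simp⟩).1, fun i x => ?_, by simp, fun x y i => ?_,
    fun x y i a b => ?_⟩
  · exact Equiv.ext fun l => Subtype.ext (sw_sw g i _ (x l).2)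
  · exact sw_len' g i _
  · change sw g i _ = _
    exact (if_neg a).trans (if_pos b)

theorem disc {ι J : Type} [Fintype ι] [Fintype J] (t : J → ι → ℝ) (ht : ∀ j e, |t j e| ≤ 1)
    (l : ℝ) : ∃ τ : ι → Bool, ∀ j, Real.exp (∑ e, l * t j e * if τ e then 1 else -1) ≤
      Fintype.card J * Real.exp (l ^ 2 / 2) ^ Fintype.card ι := by
  classical
  obtain ⟨τ, -, h⟩ := exists_le_of_sum_le (s := (univ : Finset (ι → Bool))) univ_nonempty
    (f := fun τ => ∑ j, Real.exp (∑ e, l * t j e * if τ e then 1 else -1))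
    (g := fun _ => Fintype.card J * Real.exp (l ^ 2 / 2) ^ Fintype.card ι) (by
      rw [sum_comm, sum_const, nsmul_eq_mul, mul_left_comm, ← nsmul_eq_mul]
      refine sum_le_card_nsmul _ _ _ fun j _ => ?_
      simp only [Real.exp_sum]
      rw [← Fintype.piFinset_univ, ← prod_univ_sum (fun _ => univ)
        fun e (b : Bool) => Real.exp (l * t j e * if b then 1 else -1)]
      simp only [Fintype.piFinset_univ, card_univ, Fintype.card_fun, Fintype.card_bool]
      push_cast
      rw [← mul_pow, ← card_univ, ← prod_const]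
      refine prod_le_prod (fun _ _ => by positivity) fun e _ => ?_
      have a := Real.cosh_le_exp_half_sq (l * t j e)
      have b : Real.exp ((l * t j e) ^ 2 / 2) ≤ Real.exp (l ^ 2 / 2) := by
        have := (sq_le_one_iff_abs_le_one _).2 (ht j e)
        exact Real.exp_le_exp.2 (by nlinarith [sq_nonneg l])
      rw [Real.cosh_eq] at a
      simp
      linarith)
  exact ⟨τ, fun j => (single_le_sum (f := fun j => Real.exp (∑ e, l * t j e * if τ e then 1 else -1))
    (fun _ _ => (Real.exp_pos _).le) (mem_univ j)).trans h⟩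

theorem forest {Γ : Type} {D g : ℕ} (s : Fin D → Γ → Γ) (c : Γ → Γ → List (Fin D))
    (hs : ∀ i x, s i (s i x) = x) (h0 : ∀ x, c x x = [])
    (h1 : ∀ x y i, (c (s i x) y).length ≤ (c x y).length + 1)
    (hc : ∀ x y i, (c x y).head? ≠ some i → (c x y).length < g → c (s i x) y = i :: c x y)
    (W : Finset Γ) (hW : W.card ≤ g) :
    ∃ π : Γ → Γ, ∀ x ∈ W, ∀ i, s i x ∈ W → π x = s i x ∨ π (s i x) = x := by
  classical
  let G : SimpleGraph W := SimpleGraph.fromRel fun x y => ∃ i, (y : Γ) = s i x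
  have hw : ∀ (x y : W) (p : G.Walk x y), (c x y).length ≤ p.length := by
    intro x y p
    induction p with
    | nil => simp [h0]
    | @cons u v w h p ih =>
      rw [SimpleGraph.Walk.length_cons]
      obtain ⟨i, e⟩ | ⟨i, e⟩ := h.2
      · have : (u : Γ) = s i v := by rw [e, hs]
        rw [this]
        exact (h1 _ _ _).trans (by omega)
      · rw [e]
        exact (h1 _ _ _).trans (by omega)
  let ρ : W → W := fun x => (G.connectedComponentMk x).out
  have hρ : ∀ x : W, (c x (ρ x)).length < g := fun x => by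
    have : G.Reachable x (ρ x) :=
      SimpleGraph.ConnectedComponent.exact (G.connectedComponentMk x).out_eq.symm
    obtain ⟨p⟩ := this
    have a := hw _ _ p.bypass
    have b := p.bypass_isPath.length_lt
    rw [Fintype.card_coe] at b
    omega
  refine ⟨fun x => if h : x ∈ W then ((c x (ρ ⟨x, h⟩)).head?.elim x fun i => s i x) else x,
    fun x hx i hy => ?_⟩
  have e : ρ ⟨s i x, hy⟩ = ρ ⟨x, hx⟩ := by
    by_cases q : (⟨s i x, hy⟩ : W) = ⟨x, hx⟩
    · rw [q]
    · have : G.Adj ⟨s i x, hy⟩ ⟨x, hx⟩ := ⟨q, Or.inr ⟨i, rfl⟩⟩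
      simp only [ρ, SimpleGraph.ConnectedComponent.connectedComponentMk_eq_of_adj this]
  simp only [dif_pos hx, dif_pos hy]
  by_cases a : (c x (ρ ⟨x, hx⟩)).head? = some i
  · left
    rw [a]
    rfl
  · right
    rw [e, hc _ _ _ a (hρ ⟨x, hx⟩)]
    exact hs i x

theorem sgn_le {Γ : Type} [Fintype Γ] (a u : Γ → ℝ) (hu : ∀ x, |u x| ≤ 1) :
    ∃ b : Γ → Bool, ∑ x, a x * u x ≤ ∑ x, a x * if b x then 1 else -1 := by
  classical
  refine ⟨fun x => decide (0 ≤ a x), sum_le_sum fun x _ => ?_⟩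
  have := abs_le.1 (hu x)
  by_cases h : 0 ≤ a x
  · simp only [h, decide_true, if_true]
    nlinarith
  · simp only [h, decide_false, Bool.false_eq_true, if_false]
    nlinarith

theorem level0 (g : ℕ) (κ : ℝ) (hκ : 0 < κ) : ∃ (Γ : Type) (_ : Fintype Γ) (τ : Γ → Γ → ℝ) (m : ℝ),
    0 < m ∧ (∀ x y, |τ x y| = τ x y * τ x y) ∧ (∀ x y, |τ x y| ≤ 1) ∧
    ∑ x, ∑ y, τ x y * τ x y = m ∧
    (∀ u v : Γ → ℝ, (∀ x, |u x| ≤ 1) → (∀ x, |v x| ≤ 1) →
      ∑ x, ∑ y, τ x y * (u x * v y) ≤ κ * m) ∧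
    ∀ W : Finset Γ, W.card ≤ g → ∃ π : Γ → Γ, ∀ x ∈ W, ∀ y ∈ W, τ x y ≠ 0 → π x = y ∨ π y = x := by
  classical
  obtain ⟨D, hD⟩ := exists_nat_gt (4 / κ ^ 2)
  have D0 : (0 : ℝ) < D := lt_trans (by positivity) hD
  rw [div_lt_iff₀ (by positivity)] at hD
  obtain ⟨Γ, _, ⟨x0⟩, s, c, hs, h0, h1, hc⟩ := grp D (g + 1)
  have np : (1 : ℝ) ≤ Fintype.card Γ := Nat.one_le_cast.2 (Fintype.card_pos_iff.2 ⟨x0⟩)
  obtain ⟨t, ht⟩ := disc (fun (j : (Γ → Bool) × (Γ → Bool)) (e : Γ × Fin D) =>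
    (if j.1 e.1 then (1 : ℝ) else -1) * if j.2 (s e.2 e.1) then 1 else -1)
    (fun j e => by split_ifs <;> simp) κ
  obtain ⟨sg, hsg⟩ : ∃ sg : Γ → Fin D → ℝ, sg = fun x i => if t (x, i) then 1 else -1 := ⟨_, rfl⟩
  have inj : ∀ x i j, s i x = s j x → i = j := fun x i j h => by
    have a := hc x x i (by simp [h0]) (by simp [h0])
    have b := hc x x j (by simp [h0]) (by simp [h0])
    rw [h, b] at a
    exact (List.cons.inj a).1.symm
  obtain ⟨τ, hτ⟩ : ∃ τ : Γ → Γ → ℝ, τ = fun x y => ∑ i, if s i x = y then sg x i else 0 := ⟨_, rfl⟩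
  have t1 : ∀ x i, τ x (s i x) = sg x i := fun x i => by
    rw [hτ]
    refine (sum_eq_single i (fun j _ hj => if_neg fun h => hj (inj _ _ _ h)) (by simp)).trans ?_
    simp
  have t2 : ∀ x y, τ x y ≠ 0 → ∃ i, s i x = y := fun x y h => by
    by_contra k
    push Not at k
    exact h (by rw [hτ]; exact sum_eq_zero fun i _ => if_neg (k i))
  have t3 : ∀ x (f : Γ → ℝ), ∑ y, τ x y * f y = ∑ i, sg x i * f (s i x) := fun x f => by
    simp only [hτ, sum_mul]
    rw [sum_comm]
    refine sum_congr rfl fun i _ => ?_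
    simp
  have t4 : ∀ x y, τ x y = 0 ∨ τ x y = 1 ∨ τ x y = -1 := fun x y => by
    by_cases h : τ x y = 0
    · exact Or.inl h
    obtain ⟨i, rfl⟩ := t2 x y h
    rw [t1, hsg]
    right
    dsimp only
    split_ifs <;> simp
  have hb : ∀ a b : Γ → Bool, ∑ x, ∑ y, τ x y * ((if a x then 1 else -1) * if b y then 1 else -1)
      ≤ κ * (Fintype.card Γ * D) := fun a b => by
    have k := Real.exp_le_exp.1 ((ht (a, b)).trans (show _ ≤
        Real.exp (2 * Fintype.card Γ + (Fintype.card Γ * D : ℕ) * (κ ^ 2 / 2)) by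
      rw [Real.exp_add, Real.exp_nat_mul]
      simp only [Fintype.card_prod, Fintype.card_fun, Fintype.card_bool, Fintype.card_fin]
      gcongr
      have : (2 : ℝ) ≤ Real.exp 1 := by linarith [Real.add_one_le_exp 1]
      push_cast
      rw [← pow_add]
      refine (pow_le_pow_left₀ (by norm_num) this _).trans ?_
      rw [← Real.exp_nat_mul, Real.exp_le_exp]
      push_cast
      linarith))
    have e : ∑ x, ∑ y, τ x y * ((if a x then 1 else -1) * if b y then 1 else -1) =
        ∑ e : Γ × Fin D, ((if a e.1 then (1 : ℝ) else -1) * if b (s e.2 e.1) then 1 else -1) *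
          if t e then 1 else -1 := by
      rw [Fintype.sum_prod_type]
      refine sum_congr rfl fun x _ => ?_
      rw [t3 x fun y => (if a x then 1 else -1) * if b y then 1 else -1, hsg]
      exact sum_congr rfl fun i _ => mul_comm _ _
    rw [e]
    simp only [mul_assoc κ, ← mul_sum] at k
    push_cast at k
    have := mul_le_mul_of_nonneg_left hD.le (zero_le_one.trans np)
    refine le_of_mul_le_mul_left ?_ hκ
    nlinarith
  refine ⟨Γ, inferInstance, τ, Fintype.card Γ * D, by positivity, fun x y => ?_, fun x y => ?_, ?_,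
    fun u v hu hv => ?_, fun W hW => ?_⟩
  · obtain h | h | h := t4 x y <;> simp [h]
  · obtain h | h | h := t4 x y <;> simp [h]
  · have : ∀ x, ∑ y, τ x y * τ x y = D := fun x => by
      rw [t3, sum_congr rfl fun i _ => show sg x i * τ x (s i x) = 1 by
        rw [t1, hsg]; dsimp only; split_ifs <;> simp]
      simp
    simp [this]
  · obtain ⟨a, ha⟩ := sgn_le (fun x => ∑ y, τ x y * v y) u hu
    obtain ⟨b, hb'⟩ := sgn_le (fun y => ∑ x, τ x y * if a x then 1 else -1) v hv
    refine le_trans ?_ (hb a b)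
    calc _ = ∑ x, (∑ y, τ x y * v y) * u x := by
          simp only [sum_mul]
          exact sum_congr rfl fun x _ => sum_congr rfl fun y _ => by ring
      _ ≤ _ := ha
      _ = ∑ y, (∑ x, τ x y * if a x then 1 else -1) * v y := by
          simp only [sum_mul]
          rw [sum_comm]
          exact sum_congr rfl fun x _ => sum_congr rfl fun y _ => by ring
      _ ≤ _ := hb'
      _ = _ := by
          simp only [sum_mul]
          rw [sum_comm]
          exact sum_congr rfl fun x _ => sum_congr rfl fun y _ => mul_assoc _ _ _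
  · obtain ⟨π, hπ⟩ := forest s c hs h0 h1 hc W (by omega)
    refine ⟨π, fun x hx y hy h => ?_⟩
    obtain ⟨i, rfl⟩ := t2 x y h
    exact hπ x hx i hy

theorem level (g : ℕ) (κ : ℝ) (hκ : 0 < κ) (n : ℕ) : ∃ (V : Finset ℕ) (τ : ℕ → ℕ → ℝ) (m : ℝ),
    0 < m ∧ (∀ p ∈ V, p.unpair.1 = n) ∧ (∀ p q, τ p q ≠ 0 → p ∈ V ∧ q ∈ V) ∧
    (∀ x y, |τ x y| = τ x y * τ x y) ∧ (∀ x y, |τ x y| ≤ 1) ∧
    ∑ x ∈ V, ∑ y ∈ V, τ x y * τ x y = m ∧
    (∀ u v : ℕ → ℝ, (∀ x, |u x| ≤ 1) → (∀ x, |v x| ≤ 1) →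
      ∑ x ∈ V, ∑ y ∈ V, τ x y * (u x * v y) ≤ κ * m) ∧
    ∀ W : Finset ℕ, W.card ≤ g → ∃ π : ℕ → ℕ, ∀ x ∈ W, ∀ y ∈ W, τ x y ≠ 0 → π x = y ∨ π y = x := by
  classical
  obtain ⟨Γ, _, τ, m, h1, h2, h3, h4, h5, h6⟩ := level0 g κ hκ
  obtain ⟨e0, he0⟩ := exists_injective_nat Γ
  obtain ⟨en, hen⟩ : ∃ en : Γ → ℕ, en = fun x => Nat.pair n (e0 x) := ⟨_, rfl⟩
  have inj : Function.Injective en := fun x y h => he0 (by simpa [hen] using h)
  obtain ⟨σ, hσ⟩ : ∃ σ : ℕ × ℕ → ℝ,
    σ = Function.extend (Prod.map en en) (fun z => τ z.1 z.2) 0 := ⟨_, rfl⟩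
  have s1 : ∀ x y, σ (en x, en y) = τ x y := fun x y => by
    rw [hσ]
    exact (inj.prodMap inj).extend_apply _ _ (x, y)
  have s2 : ∀ p q, σ (p, q) ≠ 0 → ∃ x y, en x = p ∧ en y = q := fun p q h => by
    by_contra k
    refine h ?_
    rw [hσ]
    exact Function.extend_apply' _ _ _ fun ⟨z, hz⟩ => k ⟨z.1, z.2, Prod.ext_iff.1 hz⟩
  refine ⟨univ.map ⟨en, inj⟩, fun p q => σ (p, q), m, h1, fun p hp => ?_, fun p q h => ?_,
    fun p q => ?_, fun p q => ?_, ?_, fun u v hu hv => ?_, fun W hW => ?_⟩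
  · obtain ⟨x, -, rfl⟩ := mem_map.1 hp
    simp [hen]
  · obtain ⟨x, y, rfl, rfl⟩ := s2 p q h
    exact ⟨mem_map.2 ⟨x, mem_univ _, rfl⟩, mem_map.2 ⟨y, mem_univ _, rfl⟩⟩
  · by_cases h : σ (p, q) = 0
    · simp [h]
    obtain ⟨x, y, rfl, rfl⟩ := s2 p q h
    simp only [s1, h2]
  · by_cases h : σ (p, q) = 0
    · simp [h]
    obtain ⟨x, y, rfl, rfl⟩ := s2 p q h
    simp only [s1, h3]
  · simp only [sum_map, Function.Embedding.coeFn_mk, s1, h4]
  · simp only [sum_map, Function.Embedding.coeFn_mk, s1]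
    exact h5 (fun x => u (en x)) (fun x => v (en x)) (fun _ => hu _) fun _ => hv _
  · obtain ⟨π, hπ⟩ := h6 (univ.filter fun x => en x ∈ W) (le_trans
      (card_le_card_of_injOn en (fun x hx => by simpa using hx) inj.injOn) hW)
    refine ⟨Function.extend en (fun x => en (π x)) id, fun p hp q hq h => ?_⟩
    obtain ⟨x, y, rfl, rfl⟩ := s2 p q h
    simp only [s1] at h
    rw [inj.extend_apply, inj.extend_apply]
    exact (hπ x (by simpa using hp) y (by simpa using hq) h).imp (congrArg en) (congrArg en)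

end Pool.Agent.H.MP_38279d_an
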