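import Pool.Agent.H.MP_38279d_an.A

set_option autoImplicit false

namespace Pool.Agent.H.MP_38279d_an

open Finset

theorem pw (L : Finset ℕ) (a b c : ℕ) (t u v : ℝ) :
    2 * (t * (u * v * if b = c ∨ (b ∉ insert a L ∧ c ∉ insert a L) then 1 else 0)) =
      t * (u * v * if b = c ∨ (b ∉ L ∧ c ∉ L) then 1 else 0) +
      t * ((u * if b = a then -1 else 1) * (v * if c = a then -1 else 1) *
        if b = c ∨ (b ∉ L ∧ c ∉ L) then 1 else 0) := by
  simp only [mem_insert, not_or]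
  by_cases e3 : b = c
  · subst e3
    simp only [true_or, if_true]
    split_ifs <;> ring
  · by_cases e1 : b = a
    · have e2 : ¬ c = a := fun h => e3 (e1.trans h.symm)
      simp only [e1, e2, if_true, if_false, not_true, false_and]
      have : ¬ a = c := fun h => e2 h.symm
      simp only [this, false_or, if_false]
      ring
    · by_cases e2 : c = a
      · simp only [e1, e2, if_true, if_false, not_true, false_and, and_false, false_or]
        ring
      · simp only [e1, e2, e3, if_false, not_false_iff, true_and, false_or]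
        ring

theorem block (V : Finset ℕ) (τ : ℕ → ℕ → ℝ) (K : ℝ)
    (h : ∀ u v : ℕ → ℝ, (∀ x, |u x| ≤ 1) → (∀ x, |v x| ≤ 1) →
      ∑ x ∈ V, ∑ y ∈ V, τ x y * (u x * v y) ≤ K) (l r : ℕ → ℕ) (u v : ℕ → ℝ)
    (hu : ∀ x, |u x| ≤ 1) (hv : ∀ x, |v x| ≤ 1) :
    ∑ x ∈ V, ∑ y ∈ V, τ x y * (u x * v y * if l x = r y then 1 else 0) ≤ K := by
  classical
  have key : ∀ L : Finset ℕ, ∀ u v : ℕ → ℝ, (∀ x, |u x| ≤ 1) → (∀ x, |v x| ≤ 1) →
      ∑ x ∈ V, ∑ y ∈ V, τ x y * (u x * v y *
        if l x = r y ∨ (l x ∉ L ∧ r y ∉ L) then 1 else 0) ≤ K := by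
    intro L
    induction L using Finset.induction_on with
    | empty => intro u v hu hv; simpa using h u v hu hv
    | insert a L _ ih =>
      intro u v hu hv
      have h1 := ih u v hu hv
      have h2 := ih (fun x => u x * if l x = a then -1 else 1) (fun x => v x * if r x = a then -1 else 1)
        (fun x => by split_ifs <;> simpa using hu x) (fun x => by split_ifs <;> simpa using hv x)
      have h3 := add_le_add h1 h2
      simp only [← sum_add_distrib] at h3
      refine le_of_mul_le_mul_left (le_trans (le_of_eq ?_) (h3.trans_eq (two_mul K).symm)) two_pos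
      simp only [mul_sum]
      exact sum_congr rfl fun x _ => sum_congr rfl fun y _ => pw L a _ _ _ _ _
  refine le_trans (le_of_eq (sum_congr rfl fun x hx => sum_congr rfl fun y _ => ?_))
    (key (V.image l) u v hu hv)
  have : l x ∈ V.image l := mem_image_of_mem l hx
  simp [this]

theorem levels : ∃ (V : ℕ → Finset ℕ) (τ : ℕ → ℕ → ℕ → ℝ) (m : ℕ → ℝ),
    (∀ n, 0 < m n) ∧ (∀ n, ∀ p ∈ V n, p.unpair.1 = n) ∧
    (∀ n p q, τ n p q ≠ 0 → p ∈ V n ∧ q ∈ V n) ∧
    (∀ n x y, |τ n x y| = τ n x y * τ n x y) ∧ (∀ n x y, |τ n x y| ≤ 1) ∧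
    (∀ n, ∑ x ∈ V n, ∑ y ∈ V n, τ n x y * τ n x y = m n) ∧
    ∀ (C : Set ℕ) (M : ℕ → ℕ → ℝ), (∀ c d, c.unpair.1 ∈ C → M c d = τ c.unpair.1 c d) →
      (∀ c d, c.unpair.1 ∉ C → M c d = 0) → ∀ n ∉ C, ∀ (α β : ℕ → ℕ) (u v : ℕ → ℝ),
      (∀ x, |u x| ≤ 1) → (∀ x, |v x| ≤ 1) →
      ∑ x ∈ V n, ∑ y ∈ V n, τ n x y * (u x * v y * M (α x) (β y)) ≤ m n / (n + 1) := by
  classical
  choose V τ m h1 h2 h3 h4 h5 h6 h7 h8 using fun (n N : ℕ) =>
    level (2 * N) (1 / ((n + 1) * (N + 2))) (by positivity) n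
  obtain ⟨N, N0, Ns⟩ : ∃ N : ℕ → ℕ, N 0 = 0 ∧ ∀ n, N (n + 1) = N n + (V n (N n)).card :=
    ⟨fun n => Nat.rec 0 (fun n a => a + (V n a).card) n, rfl, fun _ => rfl⟩
  have mono : Monotone N := monotone_nat_of_le_succ fun n => by rw [Ns]; omega
  have Nsum : ∀ n, ∑ k ∈ range n, (V k (N k)).card = N n := fun n => by
    induction n with
    | zero => simp [N0]
    | succ n ih => rw [sum_range_succ, ih, Ns]
  refine ⟨fun n => V n (N n), fun n => τ n (N n), fun n => m n (N n), fun n => h1 _ _,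
    fun n => h2 _ _, fun n => h3 _ _, fun n => h4 _ _, fun n => h5 _ _, fun n => h6 _ _, ?_⟩
  intro C M M1 M2 n hn α β u v hu hv
  have Mle : ∀ c d, |M c d| ≤ 1 := fun c d => by
    by_cases h : c.unpair.1 ∈ C
    · rw [M1 c d h]; exact h5 _ _ _ _
    · simp [M2 c d h]
  have Mne : ∀ c d, M c d ≠ 0 → c.unpair.1 ∈ C ∧ τ c.unpair.1 (N c.unpair.1) c d ≠ 0 :=
    fun c d h => by
      by_cases k : c.unpair.1 ∈ C
      · exact ⟨k, by rwa [M1 c d k] at h⟩
      · exact absurd (M2 c d k) h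
  obtain ⟨W, hW⟩ : ∃ W, W = (V n (N n)).image α ∪ (V n (N n)).image β := ⟨_, rfl⟩
  have Wc : W.card ≤ 2 * N (n + 1) := by
    have a := card_union_le ((V n (N n)).image α) ((V n (N n)).image β)
    have b := card_image_le (s := V n (N n)) (f := α)
    have c := card_image_le (s := V n (N n)) (f := β)
    rw [hW, Ns]
    omega
  have hπ : ∀ k, ∃ π : ℕ → ℕ, n < k → ∀ x ∈ W, ∀ y ∈ W, τ k (N k) x y ≠ 0 → π x = y ∨ π y = x :=
    fun k => by
      by_cases h : n < k
      · obtain ⟨π, hπ⟩ := h8 k (N k) W (Wc.trans (Nat.mul_le_mul_left 2 (mono h)))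
        exact ⟨π, fun _ => hπ⟩
      · exact ⟨id, fun a => absurd a h⟩
  choose π0 hπ0 using hπ
  obtain ⟨π, hπ⟩ : ∃ π : ℕ → ℕ, π = fun c => π0 c.unpair.1 c := ⟨_, rfl⟩
  obtain ⟨U, hU⟩ : ∃ U, U = (range n).biUnion fun k => V k (N k) := ⟨_, rfl⟩
  have Uc : U.card ≤ N n := by rw [hU, ← Nsum]; exact card_biUnion_le
  have U1 : ∀ c ∈ U, c.unpair.1 < n := fun c hc => by
    rw [hU, mem_biUnion] at hc
    obtain ⟨k, hk, hc⟩ := hc
    rw [h2 _ _ c hc]
    exact mem_range.1 hk
  have U2 : ∀ c d, M c d ≠ 0 → c.unpair.1 < n → c ∈ U := fun c d h hc => by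
    rw [hU, mem_biUnion]
    exact ⟨_, mem_range.2 hc, (h3 _ _ _ _ (Mne c d h).2).1⟩
  obtain ⟨F, hF⟩ : ∃ F : ℕ → ℝ, F = fun c => if n < c.unpair.1 then M c (π c) else 0 := ⟨_, rfl⟩
  obtain ⟨G, hG⟩ : ∃ G : ℕ → ℝ,
    G = fun d => if n < (π d).unpair.1 ∧ π (π d) ≠ d then M (π d) d else 0 := ⟨_, rfl⟩
  have Fle : ∀ c, |F c| ≤ 1 := fun c => by
    simp only [hF]; split_ifs; exacts [Mle _ _, by simp]
  have Gle : ∀ c, |G c| ≤ 1 := fun c => by
    simp only [hG]; split_ifs; exacts [Mle _ _, by simp]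
  have dec : ∀ c ∈ W, ∀ d ∈ W, M c d = ∑ a ∈ U, (if c = a then 1 else 0) * M a d +
      F c * (if π c = d then 1 else 0) + G d * if c = π d then 1 else 0 := fun c hc d hd => by
    have e : ∑ a ∈ U, (if c = a then (1 : ℝ) else 0) * M a d = if c ∈ U then M c d else 0 := by
      simp
    rw [e, hF, hG]
    dsimp only
    by_cases l : n < c.unpair.1
    · rw [if_neg fun h => absurd (U1 c h) (by omega), if_pos l]
      by_cases a : π c = d
      · by_cases b : c = π d
        · rw [← b]; simp [a]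
        · simp [a, b]
      · by_cases b : c = π d
        · rw [← b]; simp [a, l]
        · simp only [a, b, if_false, mul_zero, add_zero]
          by_contra z
          have y := (Mne c d z).2
          have ld := h2 _ _ d (h3 _ _ _ _ y).2
          obtain w | w := hπ0 _ l c hc d hd y
          · exact a (by rw [hπ]; exact w)
          · exact b (by rw [hπ]; dsimp only; rw [ld]; exact w.symm)
    · have g0 : (if n < (π d).unpair.1 ∧ π (π d) ≠ d then M (π d) d else 0) *
          (if c = π d then (1 : ℝ) else 0) = 0 := by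
        by_cases b : c = π d
        · rw [← b]; simp [l]
        · simp [b]
      rw [g0, if_neg l, zero_mul, add_zero, add_zero]
      by_cases z : M c d = 0
      · simp [z]
      · have : c.unpair.1 ≠ n := fun h => hn (h ▸ (Mne c d z).1)
        rw [if_pos (U2 c d z (by omega))]
  obtain ⟨K, hK⟩ : ∃ K : ℝ, K = 1 / ((n + 1) * (N n + 2)) * m n (N n) := ⟨_, rfl⟩
  have cut := h7 n (N n)
  rw [← hK] at cut
  have mul1 : ∀ a b : ℝ, |a| ≤ 1 → |b| ≤ 1 → |a * b| ≤ 1 := fun a b ha hb => by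
    rw [abs_mul]; exact mul_le_one₀ ha (abs_nonneg _) hb
  have b1 := block _ _ _ cut (fun x => π (α x)) β (fun x => u x * F (α x)) v
    (fun x => mul1 _ _ (hu x) (Fle _)) hv
  have b2 := block _ _ _ cut α (fun x => π (β x)) u (fun x => v x * G (β x)) hu
    (fun x => mul1 _ _ (hv x) (Gle _))
  have b3 := sum_le_card_nsmul U _ K fun a _ => cut (fun x => u x * if α x = a then 1 else 0)
    (fun y => v y * M a (β y)) (fun x => mul1 _ _ (hu x) (by split_ifs <;> simp))
    (fun x => mul1 _ _ (hv x) (Mle _ _))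
  have K0 : 0 ≤ K := by rw [hK]; have := h1 n (N n); positivity
  have b4 : (U.card : ℝ) * K ≤ N n * K := mul_le_mul_of_nonneg_right (by exact_mod_cast Uc) K0
  rw [nsmul_eq_mul] at b3
  have fin : (N n + 2 : ℝ) * K = m n (N n) / (n + 1) := by rw [hK]; field_simp
  refine le_trans (le_of_eq ?_) ((add_le_add (add_le_add b3 b1) b2).trans (by linarith))
  rw [sum_comm (s := U)]
  simp only [← sum_add_distrib]
  refine sum_congr rfl fun x hx => ?_
  rw [sum_comm (s := U)]
  simp only [← sum_add_distrib]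
  refine sum_congr rfl fun y hy => ?_
  rw [dec (α x) (by rw [hW]; exact mem_union_left _ (mem_image_of_mem _ hx)) (β y)
    (by rw [hW]; exact mem_union_right _ (mem_image_of_mem _ hy))]
  simp only [mul_add, mul_sum]
  congr 1
  · congr 1
    · exact sum_congr rfl fun a _ => by ring
    · ring
  · ring

end Pool.Agent.H.MP_38279d_an
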