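import Pool.Agent.H.MP_38279d_an.B

set_option autoImplicit false

namespace Pool.Agent.H.MP_38279d_an

open Finset Filter Topology

abbrev L1 := lp (fun _ : ℕ => ℝ) (1 : ENNReal)
abbrev C0 := ZeroAtInftyContinuousMap ℕ ℝ

noncomputable def ee (c : ℕ) : L1 := lp.single 1 c 1

theorem ee_norm (c : ℕ) : ‖ee c‖ = 1 := by
  rw [ee, lp.norm_single one_pos, norm_one]

theorem l1_sum (a : L1) : HasSum (fun c => |a c|) ‖a‖ := by
  simpa using lp.hasSum_norm (p := 1) (by simp) a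

theorem c0_le (w : C0) (d : ℕ) : |w d| ≤ ‖w‖ := by
  rw [← ZeroAtInftyContinuousMap.norm_toBCF_eq_norm]
  exact w.toBCF.norm_coe_le_norm d

theorem c0_norm (w : C0) (K : ℝ) (hK : 0 ≤ K) (h : ∀ d, |w d| ≤ K) : ‖w‖ ≤ K := by
  rw [← ZeroAtInftyContinuousMap.norm_toBCF_eq_norm]
  exact (BoundedContinuousFunction.norm_le hK).2 h

theorem c0_two (w : C0) : ∃ d, ‖w‖ ≤ 2 * |w d| := by
  by_contra h
  push Not at h
  have a := c0_norm w (‖w‖ / 2) (by positivity) fun d => by linarith [h d]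
  have b := h 0
  linarith [abs_nonneg (w 0)]

noncomputable def ev (d : ℕ) : C0 →L[ℝ] ℝ :=
  LinearMap.mkContinuous ⟨⟨fun w => w d, fun _ _ => rfl⟩, fun _ _ => rfl⟩ 1 fun w => by
    simpa using c0_le w d

theorem ev_apply (d : ℕ) (w : C0) : ev d w = w d := rfl

theorem l1_two (L : L1 →L[ℝ] ℝ) : ∃ c, ‖L‖ ≤ 2 * |L (ee c)| := by
  by_contra h
  push Not at h
  have a : ‖L‖ ≤ ‖L‖ / 2 := L.opNorm_le_bound (by positivity) fun x => by
    have s := (lp.hasSum_single (p := 1) (by simp) x).mapL L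
    refine s.norm_le_of_bounded (((l1_sum x).mul_left (‖L‖ / 2))) fun c => ?_
    have : lp.single 1 c (x c) = x c • ee c := by
      rw [ee, ← lp.single_smul, smul_eq_mul, mul_one]
    rw [this, map_smul, smul_eq_mul, Real.norm_eq_abs, abs_mul, mul_comm]
    exact mul_le_mul_of_nonneg_right (by linarith [h c]) (abs_nonneg _)
  have b := h 0
  linarith [abs_nonneg (L (ee 0))]

theorem exists_op (v : ℕ → C0) (hv : ∀ c, ‖v c‖ ≤ 1) : ∃ T : L1 →L[ℝ] C0, ∀ c, T (ee c) = v c := by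
  have hb : ∀ (a : L1) c, ‖a c • v c‖ ≤ |a c| := fun a c => by
    rw [norm_smul, Real.norm_eq_abs]
    exact mul_le_of_le_one_right (abs_nonneg _) (hv c)
  have hs : ∀ a : L1, Summable fun c => a c • v c := fun a =>
    Summable.of_norm_bounded (l1_sum a).summable (hb a)
  refine ⟨LinearMap.mkContinuous ⟨⟨fun a => ∑' c, a c • v c, fun a b => ?_⟩, fun r a => ?_⟩ 1
    fun a => ?_, fun c => ?_⟩
  · rw [← (hs a).tsum_add (hs b)]
    exact tsum_congr fun c => add_smul (a c) (b c) (v c)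
  · rw [RingHom.id_apply, ← (hs a).tsum_const_smul r]
    exact tsum_congr fun c => by rw [lp.coeFn_smul, Pi.smul_apply, smul_smul, smul_eq_mul]
  · rw [one_mul]
    exact (hs a).hasSum.norm_le_of_bounded (l1_sum a) (hb a)
  · change ∑' d, (ee c) d • v d = v c
    rw [tsum_eq_single c fun d hd => by rw [ee, lp.single_apply_ne _ _ _ hd, zero_smul], ee,
      lp.single_apply_self, one_smul]

theorem exists_mat (M : ℕ → ℕ → ℝ) (h1 : ∀ c d, |M c d| ≤ 1)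
    (h2 : ∀ c, ∃ V : Finset ℕ, ∀ d, M c d ≠ 0 → d ∈ V) :
    ∃ T : L1 →L[ℝ] C0, ∀ c d, T (ee c) d = M c d := by
  have hz : ∀ c, Tendsto (M c) (cocompact ℕ) (𝓝 0) := fun c => by
    obtain ⟨V, hV⟩ := h2 c
    rw [cocompact_eq_cofinite]
    refine tendsto_const_nhds.congr' ?_
    filter_upwards [V.finite_toSet.compl_mem_cofinite] with d hd
    by_contra z
    exact hd (hV d (Ne.symm z))
  obtain ⟨T, hT⟩ := exists_op (fun c => ⟨⟨M c, continuous_of_discreteTopology⟩, hz c⟩)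
    fun c => c0_norm _ 1 one_pos.le (h1 c)
  exact ⟨T, fun c d => by rw [hT]; rfl⟩

theorem sg_ex (x : ℝ) : ∃ e : ℝ, |e| ≤ 1 ∧ |x| = e * x := by
  by_cases h : 0 ≤ x
  · exact ⟨1, by simp, by rw [abs_of_nonneg h, one_mul]⟩
  · exact ⟨-1, by simp, by rw [abs_of_neg (by linarith), neg_one_mul]⟩

theorem reduce (V : Finset ℕ) (τ : ℕ → ℕ → ℝ) (T : L1 →L[ℝ] C0) (K : ℝ)
    (h : ∀ (α β : ℕ → ℕ) (u v : ℕ → ℝ), (∀ x, |u x| ≤ 1) → (∀ x, |v x| ≤ 1) →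
      ∑ x ∈ V, ∑ y ∈ V, τ x y * (u x * v y * T (ee (α x)) (β y)) ≤ K)
    (A : L1 →L[ℝ] L1) (B : C0 →L[ℝ] C0) :
    |∑ x ∈ V, ∑ y ∈ V, τ x y * B (T (A (ee x))) y| ≤ 4 * ‖A‖ * ‖B‖ * K := by
  obtain ⟨L, hL⟩ : ∃ L : ℕ → L1 →L[ℝ] ℝ,
    L = fun x => ∑ y ∈ V, τ x y • (ev y).comp (B.comp T) := ⟨_, rfl⟩
  have La : ∀ x a, L x a = ∑ y ∈ V, τ x y * B (T a) y := fun x a => by
    simp [hL, ev_apply]
  choose α hα using fun x => l1_two (L x)
  choose u hu hu' using fun x => sg_ex (L x (ee (α x)))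
  obtain ⟨w, hw⟩ : ∃ w : ℕ → C0, w = fun y => ∑ x ∈ V, (τ x y * u x) • T (ee (α x)) := ⟨_, rfl⟩
  choose β hβ using fun y => c0_two (w y)
  choose v hv hv' using fun y => sg_ex (w y (β y))
  have s1 : |∑ x ∈ V, ∑ y ∈ V, τ x y * B (T (A (ee x))) y| ≤
      2 * ‖A‖ * ∑ x ∈ V, u x * L x (ee (α x)) := by
    rw [mul_sum]
    refine (abs_sum_le_sum_abs _ _).trans (sum_le_sum fun x _ => ?_)
    rw [← La, ← hu']
    have a := (L x).le_opNorm (A (ee x))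
    have b := A.le_opNorm (ee x)
    rw [ee_norm, mul_one] at b
    calc _ ≤ _ := a
      _ ≤ (2 * |L x (ee (α x))|) * ‖A‖ := mul_le_mul (hα x) b (norm_nonneg _) (by positivity)
      _ = _ := by ring
  have s2 : ∑ x ∈ V, u x * L x (ee (α x)) = ∑ y ∈ V, B (w y) y := by
    simp only [La, mul_sum]
    rw [sum_comm]
    refine sum_congr rfl fun y _ => ?_
    rw [← ev_apply, hw]
    simp only [map_sum, map_smul, ev_apply, smul_eq_mul]
    exact sum_congr rfl fun x _ => by ring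
  have s3 : ∑ y ∈ V, B (w y) y ≤ 2 * ‖B‖ * ∑ y ∈ V, v y * w y (β y) := by
    rw [mul_sum]
    refine sum_le_sum fun y _ => ?_
    rw [← hv']
    calc _ ≤ ‖B (w y)‖ := (le_abs_self _).trans (c0_le _ _)
      _ ≤ ‖B‖ * ‖w y‖ := B.le_opNorm _
      _ ≤ ‖B‖ * (2 * |w y (β y)|) := mul_le_mul_of_nonneg_left (hβ y) (norm_nonneg B)
      _ = _ := by ring
  have s4 : ∑ y ∈ V, v y * w y (β y) ≤ K := by
    refine le_trans (le_of_eq ?_) (h α β u v hu hv)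
    rw [sum_comm]
    refine sum_congr rfl fun y _ => ?_
    rw [← ev_apply, hw]
    simp only [map_sum, map_smul, ev_apply, smul_eq_mul, mul_sum]
    exact sum_congr rfl fun x _ => by ring
  calc _ ≤ _ := s1
    _ ≤ 2 * ‖A‖ * (2 * ‖B‖ * K) := mul_le_mul_of_nonneg_left
        (s2.trans_le (s3.trans (mul_le_mul_of_nonneg_left s4 (by positivity)))) (by positivity)
    _ = _ := by ring

theorem funcs : ∃ Φ : ℕ → (L1 →L[ℝ] C0) →L[ℝ] ℝ, (∀ n S, |Φ n S| ≤ ‖S‖) ∧ ∀ C : Set ℕ,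
    ∃ T : L1 →L[ℝ] C0, (∀ n ∈ C, Φ n T = 1) ∧ ∀ n ∉ C, ∀ (A : L1 →L[ℝ] L1) (B : C0 →L[ℝ] C0),
      |Φ n (B.comp (T.comp A))| ≤ 4 * ‖A‖ * ‖B‖ / (n + 1) := by
  classical
  obtain ⟨V, τ, m, h1, h2, h3, h4, h5, h6, h7⟩ := levels
  obtain ⟨Φ, hΦ⟩ : ∃ Φ : ℕ → (L1 →L[ℝ] C0) →L[ℝ] ℝ, Φ = fun n => (m n)⁻¹ • ∑ x ∈ V n, ∑ y ∈ V n,
    τ n x y • (ev y).comp (ContinuousLinearMap.apply ℝ C0 (ee x)) := ⟨_, rfl⟩
  have Φa : ∀ n S, Φ n S = (m n)⁻¹ * ∑ x ∈ V n, ∑ y ∈ V n, τ n x y * S (ee x) y := fun n S => by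
    simp [hΦ, ev_apply]
  refine ⟨Φ, fun n S => ?_, fun C => ?_⟩
  · rw [Φa, abs_mul, abs_of_pos (inv_pos.2 (h1 n)), inv_mul_le_iff₀ (h1 n), ← h6, sum_mul]
    refine (abs_sum_le_sum_abs _ _).trans (sum_le_sum fun x _ => ?_)
    rw [sum_mul]
    refine (abs_sum_le_sum_abs _ _).trans (sum_le_sum fun y _ => ?_)
    rw [abs_mul, ← h4]
    refine mul_le_mul_of_nonneg_left ((c0_le _ _).trans ?_) (abs_nonneg _)
    simpa [ee_norm] using S.le_opNorm (ee x)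
  obtain ⟨T, hT⟩ := exists_mat (fun c d => if c.unpair.1 ∈ C then τ c.unpair.1 c d else 0)
    (fun c d => by split_ifs; exacts [h5 _ _ _, by simp])
    fun c => ⟨V c.unpair.1, fun d hd => (h3 _ c d fun z => hd (by simp [z])).2⟩
  refine ⟨T, fun n hn => ?_, fun n hn A B => ?_⟩
  · rw [Φa, inv_mul_eq_one₀ (h1 n).ne', ← h6]
    refine sum_congr rfl fun x hx => sum_congr rfl fun y _ => ?_
    rw [hT, h2 n x hx, if_pos hn]
  · rw [Φa, abs_mul, abs_of_pos (inv_pos.2 (h1 n)), inv_mul_le_iff₀ (h1 n)]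
    refine (reduce (V n) (τ n) T (m n / (n + 1)) (h7 C (fun c d => T (ee c) d)
      (fun c d h => by rw [hT, if_pos h]) (fun c d h => by rw [hT, if_neg h]) n hn) A B).trans_eq ?_
    ring

end Pool.Agent.H.MP_38279d_an
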